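import Pool.Agent.Q63.Tracking.MaxP

/-!
Comparison principle for bounded subsolutions which are not continuous at the corner.
-/

open Set Filter Topology

namespace Pool.Agent.Q63.Tracking

/-- The shifted fundamental solution centred at `x = L`. -/
noncomputable def GG (L δ t x : ℝ) : ℝ := (√(t + δ))⁻¹ * Real.exp (-((x - L) ^ 2 / (4 * (t + δ))))

theorem GG_pos {L δ t x : ℝ} (h : 0 < t + δ) : 0 < GG L δ t x := by
  unfold GG
  have : 0 < √(t + δ) := Real.sqrt_pos.2 h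
  positivity

theorem GG_dt {L δ t x : ℝ} (h : 0 < t + δ) :
    HasDerivAt (fun s => GG L δ s x)
      (GG L δ t x * ((x - L) ^ 2 / (4 * (t + δ) ^ 2) - 1 / (2 * (t + δ)))) t := by
  have hs : 0 < √(t + δ) := Real.sqrt_pos.2 h
  have hsq : √(t + δ) * √(t + δ) = t + δ := Real.mul_self_sqrt h.le
  have h1 : HasDerivAt (fun s : ℝ => s + δ) 1 t := (hasDerivAt_id t).add_const δ
  have h2 : HasDerivAt (fun s : ℝ => √(s + δ)) (1 / (2 * √(t + δ))) t := h1.sqrt h.ne'
  have h3 := h2.fun_inv hs.ne'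
  have h4 : HasDerivAt (fun s : ℝ => -((x - L) ^ 2 / (4 * (s + δ))))
      ((x - L) ^ 2 / (4 * (t + δ) ^ 2)) t := by
    have h5 : HasDerivAt (fun s : ℝ => 4 * (s + δ)) (4 * 1) t := h1.const_mul 4
    have h6 := ((h5.fun_inv (by positivity)).const_mul ((x - L) ^ 2)).neg
    refine (h6.congr_deriv ?_).congr_of_eventuallyEq (Eventually.of_forall fun s => ?_)
    · field_simp
    · simp only [Pi.neg_apply]; rw [div_eq_mul_inv]
  have h7 := h3.mul h4.exp
  unfold GG
  refine h7.congr_deriv ?_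
  have e1 : √(t + δ) ^ 2 = t + δ := Real.sq_sqrt h.le
  field_simp
  rw [e1]
  ring

theorem GG_dx {L δ t x : ℝ} (h : 0 < t + δ) :
    HasDerivAt (GG L δ t) (GG L δ t x * (-((x - L) / (2 * (t + δ))))) x := by
  have h1 : HasDerivAt (fun y : ℝ => -((y - L) ^ 2 / (4 * (t + δ)))) (-((x - L) / (2 * (t + δ)))) x := by
    have h2 : HasDerivAt (fun y : ℝ => (y - L) ^ 2) (2 * (x - L)) x := by
      have := ((hasDerivAt_id x).sub_const L).fun_pow 2
      simpa using this
    refine (h2.div_const (4 * (t + δ))).neg.congr_deriv ?_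
    field_simp
    ring
  have h3 := (h1.exp).const_mul (√(t + δ))⁻¹
  unfold GG
  refine h3.congr_deriv ?_
  ring

theorem GG_dxx {L δ t x : ℝ} (h : 0 < t + δ) :
    HasDerivAt (fun y => GG L δ t y * (-((y - L) / (2 * (t + δ)))))
      (GG L δ t x * ((x - L) ^ 2 / (4 * (t + δ) ^ 2) - 1 / (2 * (t + δ)))) x := by
  have h1 : HasDerivAt (fun y : ℝ => -((y - L) / (2 * (t + δ)))) (-(1 / (2 * (t + δ)))) x :=
    (((hasDerivAt_id x).sub_const L).div_const (2 * (t + δ))).neg
  refine ((GG_dx (L := L) (x := x) h).mul h1).congr_deriv ?_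
  field_simp
  ring

/-- Comparison principle on `(0,T'] × [0,L]`. -/
theorem comparison {L T M : ℝ} {z zt zx zxx : ℝ → ℝ → ℝ}
    (hbdd : ∀ t ∈ Icc 0 T, ∀ x ∈ Icc 0 L, z t x ≤ M)
    (hc : ContinuousOn (fun q : ℝ × ℝ => z q.1 q.2) ((Icc 0 T ×ˢ Icc 0 L) \ {(0, L)}))
    (dt : ∀ t ∈ Ioc 0 T, ∀ x ∈ Ioo 0 L, HasDerivAt (fun s => z s x) (zt t x) t)
    (dx : ∀ t ∈ Ioc 0 T, ∀ x ∈ Ioo 0 L, HasDerivAt (z t) (zx t x) x)
    (dxx : ∀ t ∈ Ioc 0 T, ∀ x ∈ Ioo 0 L, HasDerivAt (zx t) (zxx t x) x)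
    (heq : ∀ t ∈ Ioc 0 T, ∀ x ∈ Ioo 0 L, zt t x ≤ zxx t x)
    (h0 : ∀ x ∈ Ico 0 L, z 0 x ≤ 0) (hl : ∀ t ∈ Icc 0 T, z t 0 ≤ 0)
    (hr : ∀ t ∈ Ioc 0 T, z t L ≤ 0) :
    ∀ t ∈ Ioc 0 T, ∀ x ∈ Icc 0 L, z t x ≤ 0 := by
  intro t ht x hx
  set N := max M 0 with hN
  have hN0 : 0 ≤ N := le_max_right _ _
  have key : ∀ δ ∈ Ioo (0 : ℝ) 1, z t x ≤ N * √(2 * δ) * Real.exp (1 / 4) * (√t)⁻¹ + δ * t := by
    intro δ hδ
    set η := N * √(2 * δ) * Real.exp (1 / 4) with hη
    have hη0 : 0 ≤ η := by positivity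
    have hpos : ∀ s ∈ Icc 0 T, 0 < s + δ := fun s hs => by linarith [hs.1, hδ.1]
    have hGc : ContinuousOn (fun q : ℝ × ℝ => GG L δ q.1 q.2)
        ((Icc 0 T ×ˢ Icc 0 L) \ {(0, L)}) := by
      unfold GG
      apply ContinuousOn.mul
      · apply ContinuousOn.inv₀
        · fun_prop
        · intro q hq
          exact (Real.sqrt_pos.2 (hpos q.1 hq.1.1)).ne'
      · apply Real.continuous_exp.comp_continuousOn
        apply ContinuousOn.neg
        apply ContinuousOn.div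
        · fun_prop
        · fun_prop
        · intro q hq
          have := hpos q.1 hq.1.1
          positivity
    have := max_strict (L := L) (T := T)
      (h := fun s y => z s y - η * GG L δ s y - δ * s)
      (ht := fun s y => zt s y - η * (GG L δ s y *
        ((y - L) ^ 2 / (4 * (s + δ) ^ 2) - 1 / (2 * (s + δ)))) - δ)
      (hx := fun s y => zx s y - η * (GG L δ s y * (-((y - L) / (2 * (s + δ))))))
      (hxx := fun s y => zxx s y - η * (GG L δ s y *
        ((y - L) ^ 2 / (4 * (s + δ) ^ 2) - 1 / (2 * (s + δ)))))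
      ?_ ?_ ?_ ?_ ?_ ?_ ?_ ?_ (r := δ) hδ.1 ?_ t ⟨ht.1.le, ht.2⟩ x hx
      (fun he => ht.1.ne' (Prod.ext_iff.1 he).1)
    · have hG : GG L δ t x ≤ (√t)⁻¹ := by
        unfold GG
        have h1 : (√(t + δ))⁻¹ ≤ (√t)⁻¹ := by
          apply inv_anti₀ (Real.sqrt_pos.2 ht.1)
          exact Real.sqrt_le_sqrt (by linarith [hδ.1])
        have h2 : Real.exp (-((x - L) ^ 2 / (4 * (t + δ)))) ≤ 1 := by
          apply Real.exp_le_one_iff.2
          have := hpos t ⟨ht.1.le, ht.2⟩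
          have : 0 ≤ (x - L) ^ 2 / (4 * (t + δ)) := by positivity
          linarith
        calc (√(t + δ))⁻¹ * Real.exp (-((x - L) ^ 2 / (4 * (t + δ)))) ≤ (√t)⁻¹ * 1 := by
              gcongr
          _ = (√t)⁻¹ := mul_one _
      have : η * GG L δ t x ≤ η * (√t)⁻¹ := by gcongr
      linarith
    · exact (hc.sub (hGc.const_smul η |>.congr fun q _ => by simp)).sub (by fun_prop)
    · intro s hs y hy
      have h1 := ((dt s hs y hy).sub ((GG_dt (L := L) (x := y)
        (hpos s ⟨hs.1.le, hs.2⟩)).const_mul η)).sub ((hasDerivAt_id s).const_mul δ)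
      refine h1.congr_deriv ?_
      ring
    · intro s hs y hy
      have h1 := ((dx s hs y hy).sub ((GG_dx (L := L) (x := y)
        (hpos s ⟨hs.1.le, hs.2⟩)).const_mul η)).sub_const (δ * s)
      exact h1
    · intro s hs y hy
      exact (dxx s hs y hy).sub ((GG_dxx (L := L) (x := y)
        (hpos s ⟨hs.1.le, hs.2⟩)).const_mul η)
    · intro s hs y hy
      have := heq s hs y hy
      linarith [hδ.1]
    · intro y hy
      have h1 := h0 y hy
      have h2 : 0 < GG L δ 0 y := GG_pos (by linarith [hδ.1])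
      have : 0 ≤ η * GG L δ 0 y := by positivity
      linarith
    · intro s hs
      have h1 := hl s hs
      have h2 : 0 < GG L δ s 0 := GG_pos (hpos s hs)
      have h3 : 0 ≤ η * GG L δ s 0 := by positivity
      have h4 : 0 ≤ δ * s := mul_nonneg hδ.1.le hs.1
      linarith
    · intro s hs
      have h1 := hr s hs
      have h2 : 0 < GG L δ s L := GG_pos (hpos s ⟨hs.1.le, hs.2⟩)
      have h3 : 0 ≤ η * GG L δ s L := by positivity
      have h4 : 0 ≤ δ * s := mul_nonneg hδ.1.le hs.1.le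
      linarith
    · intro s hs y hy hsr hyr _
      have h1 := hbdd s hs y hy
      have hp := hpos s hs
      have h2 : (√(2 * δ))⁻¹ * Real.exp (-(1 / 4)) ≤ GG L δ s y := by
        unfold GG
        have a1 : (√(2 * δ))⁻¹ ≤ (√(s + δ))⁻¹ := by
          apply inv_anti₀ (Real.sqrt_pos.2 hp)
          exact Real.sqrt_le_sqrt (by linarith)
        have a2 : -(1 / 4) ≤ -((y - L) ^ 2 / (4 * (s + δ))) := by
          rw [neg_le_neg_iff, div_le_div_iff₀ (by positivity) (by norm_num)]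
          have a3 : (y - L) ^ 2 ≤ δ ^ 2 := by
            apply sq_le_sq' <;> linarith [hy.2, hδ.1]
          nlinarith [hδ.1, hδ.2, hs.1]
        have a4 := Real.exp_le_exp.2 a2
        gcongr
      have h3 : η * ((√(2 * δ))⁻¹ * Real.exp (-(1 / 4))) = N := by
        have b1 : √(2 * δ) ≠ 0 := (Real.sqrt_pos.2 (by linarith [hδ.1])).ne'
        rw [hη]
        have b2 : Real.exp (1 / 4) * Real.exp (-(1 / 4)) = 1 := by
          rw [← Real.exp_add]; simp
        calc N * √(2 * δ) * Real.exp (1 / 4) * ((√(2 * δ))⁻¹ * Real.exp (-(1 / 4)))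
            = N * (√(2 * δ) * (√(2 * δ))⁻¹) * (Real.exp (1 / 4) * Real.exp (-(1 / 4))) := by ring
          _ = N := by rw [b2, mul_inv_cancel₀ b1]; ring
      have h4 : N ≤ η * GG L δ s y := by
        rw [← h3]; gcongr
      have h5 : 0 ≤ δ * s := mul_nonneg hδ.1.le hs.1
      have h6 : M ≤ N := le_max_left _ _
      linarith
  have hlim : Tendsto (fun δ : ℝ => N * √(2 * δ) * Real.exp (1 / 4) * (√t)⁻¹ + δ * t) (𝓝[>] 0)
      (𝓝 0) := by
    have h1 : Continuous (fun δ : ℝ => N * √(2 * δ) * Real.exp (1 / 4) * (√t)⁻¹ + δ * t) := by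
      fun_prop
    have h2 := h1.tendsto 0
    simp only [mul_zero, Real.sqrt_zero, zero_mul, add_zero] at h2
    exact h2.mono_left nhdsWithin_le_nhds
  refine ge_of_tendsto hlim ?_
  filter_upwards [Ioo_mem_nhdsGT (zero_lt_one (α := ℝ))] with δ hδ using key δ hδ

end Pool.Agent.Q63.Tracking
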