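import Mathlib

/-!
Boundary tracking for the one-dimensional heat equation (problem MP_93c926_an): definitions.
-/

open Set
open scoped ENNReal

namespace Pool.Agent.Q63.Tracking

/-- `y` (written `y t x`) is the bounded classical solution on `[0,T] × [0,L]` of `∂ₜ y = ∂ₓₓ y` with
`y(t,0) = 0`, `y(t,L) = v(t)` and `y(0,x) = 0`, for a control `v` which is continuous on `[0,T]`. It is
continuous up to the boundary, except (if `v(0) ≠ 0`) at the corner `(t,x) = (0,L)`. -/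
structure IsSolution (L T : ℝ) (v : C(Icc (0 : ℝ) T, ℝ)) (y : ℝ → ℝ → ℝ) : Prop where
  bounded : ∃ M : ℝ, ∀ t ∈ Icc 0 T, ∀ x ∈ Icc 0 L, |y t x| ≤ M
  continuousOn : ContinuousOn (fun q : ℝ × ℝ => y q.1 q.2) ((Icc 0 T ×ˢ Icc 0 L) \ {(0, L)})
  differentiable : ∀ t ∈ Ioo 0 T, ∀ x ∈ Ioo 0 L,
    DifferentiableAt ℝ (y t) x ∧ DifferentiableAt ℝ (deriv (y t)) x
  heat : ∀ t ∈ Ioo 0 T, ∀ x ∈ Ioo 0 L, HasDerivAt (fun s => y s x) (deriv (deriv (y t)) x) t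
  left : ∀ t ∈ Icc 0 T, y t 0 = 0
  right : ∀ t : Icc (0 : ℝ) T, 0 < (t : ℝ) → y t L = v t
  initial : ∀ x ∈ Ico 0 L, y 0 x = 0

/-- The control `v` achieves `ε`-approximate tracking of the target `w`: the flux `g = ∂ₓ y(·,0)` of
the solution with control `v` is continuous on `[0,T]` and `|g - w| ≤ ε` there. -/
def Achieves (L T : ℝ) (w : ℝ → ℝ) (ε : ℝ) (v : C(Icc (0 : ℝ) T, ℝ)) : Prop :=
  ∃ (y : ℝ → ℝ → ℝ) (g : ℝ → ℝ), IsSolution L T v y ∧ ContinuousOn g (Icc 0 T) ∧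
    ∀ t ∈ Icc 0 T, HasDerivWithinAt (y t) (g t) (Icc 0 L) 0 ∧ |g t - w t| ≤ ε

/-- The cost `K_w(ε)`: the infimum of the norms `‖v‖` in `C⁰([0,T])` of the controls which achieve
`ε`-approximate tracking of `w` (it is `∞` if there are none). -/
noncomputable def cost (L T : ℝ) (w : ℝ → ℝ) (ε : ℝ) : ℝ≥0∞ :=
  ⨅ (v : C(Icc (0 : ℝ) T, ℝ)) (_ : Achieves L T w ε v), ‖v‖ₑ

end Pool.Agent.Q63.Tracking
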