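import Pool.Agent.Q63.Tracking.Comp

/-!
Lower bound for the cost of tracking the target `w(t) = t`.
-/

open Set Filter Topology
open scoped ENNReal

namespace Pool.Agent.Q63.Tracking

/-- First order condition for one-sided derivatives at the left end point. -/
theorem deriv_le_of_le {L : ℝ} (hL : 0 < L) {f h : ℝ → ℝ} {f' h' : ℝ}
    (hf : HasDerivWithinAt f f' (Icc 0 L) 0) (hh : HasDerivWithinAt h h' (Icc 0 L) 0)
    (h0 : f 0 = h 0) (hle : ∀ x ∈ Icc 0 L, f x ≤ h x) : f' ≤ h' := by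
  have h1 := hh.sub hf
  rw [hasDerivWithinAt_iff_tendsto_slope] at h1
  have hset : Icc 0 L \ {0} = Ioc 0 L := by
    ext x
    simp only [Set.mem_sdiff, mem_Icc, mem_singleton_iff, mem_Ioc]
    constructor
    · rintro ⟨⟨a, b⟩, c⟩
      exact ⟨lt_of_le_of_ne a (Ne.symm c), b⟩
    · rintro ⟨a, b⟩
      exact ⟨⟨a.le, b⟩, a.ne'⟩
  rw [hset] at h1
  have hne : (𝓝[Ioc 0 L] (0 : ℝ)).NeBot := left_nhdsWithin_Ioc_neBot hL
  have : 0 ≤ h' - f' := by
    refine ge_of_tendsto h1 ?_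
    filter_upwards [self_mem_nhdsWithin] with x hx
    rw [slope_def_field]
    have := hle x ⟨hx.1.le, hx.2⟩
    apply div_nonneg
    · simp only [Pi.sub_apply]
      rw [h0]
      linarith
    · linarith [hx.1]
  linarith

/-- The barrier. -/
noncomputable def BB (K a L t x : ℝ) : ℝ := K * Real.exp (a ^ 2 * t) * Real.sinh (a * x) / Real.sinh (a * L)

theorem BB_dt {K a L t x : ℝ} : HasDerivAt (fun s => BB K a L s x) (a ^ 2 * BB K a L t x) t := by
  unfold BB
  have h1 : HasDerivAt (fun s : ℝ => a ^ 2 * s) (a ^ 2) t := by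
    simpa using (hasDerivAt_id t).const_mul (a ^ 2)
  have h2 := (((h1.exp).const_mul K).mul_const (Real.sinh (a * x))).div_const (Real.sinh (a * L))
  refine h2.congr_deriv ?_
  ring

theorem BB_dx {K a L t x : ℝ} : HasDerivAt (BB K a L t)
    (a * (K * Real.exp (a ^ 2 * t) * Real.cosh (a * x) / Real.sinh (a * L))) x := by
  unfold BB
  have h1 : HasDerivAt (fun y : ℝ => a * y) a x := by
    simpa using (hasDerivAt_id x).const_mul a
  have h2 := ((h1.sinh).const_mul (K * Real.exp (a ^ 2 * t))).div_const (Real.sinh (a * L))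
  refine h2.congr_deriv ?_
  ring

theorem BB_dxx {K a L t x : ℝ} : HasDerivAt
    (fun y => a * (K * Real.exp (a ^ 2 * t) * Real.cosh (a * y) / Real.sinh (a * L)))
    (a ^ 2 * BB K a L t x) x := by
  unfold BB
  have h1 : HasDerivAt (fun y : ℝ => a * y) a x := by
    simpa using (hasDerivAt_id x).const_mul a
  have h2 := (((h1.cosh).const_mul (K * Real.exp (a ^ 2 * t))).div_const
    (Real.sinh (a * L))).const_mul a
  refine h2.congr_deriv ?_
  ring

theorem abs_le_barrier {L T : ℝ} (hL : 0 < L) {v : C(Icc (0 : ℝ) T, ℝ)} {y : ℝ → ℝ → ℝ}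
    (hy : IsSolution L T v y) {a : ℝ} (ha : 0 < a) {t x : ℝ} (ht : t ∈ Ioo 0 T)
    (hx : x ∈ Icc 0 L) : |y t x| ≤ BB ‖v‖ a L t x := by
  have hsL : 0 < Real.sinh (a * L) := Real.sinh_pos_iff.2 (by positivity)
  have hB0 : ∀ s x' : ℝ, 0 ≤ x' → 0 ≤ BB ‖v‖ a L s x' := by
    intro s x' hx'
    unfold BB
    have : 0 ≤ Real.sinh (a * x') := Real.sinh_nonneg_iff.2 (by positivity)
    positivity
  have hBL : ∀ s : ℝ, 0 ≤ s → ‖v‖ ≤ BB ‖v‖ a L s L := by
    intro s hs
    unfold BB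
    rw [mul_div_assoc, div_self hsL.ne', mul_one]
    have : 1 ≤ Real.exp (a ^ 2 * s) := Real.one_le_exp (by positivity)
    nlinarith [norm_nonneg v]
  have hBc : Continuous (fun q : ℝ × ℝ => BB ‖v‖ a L q.1 q.2) := by
    unfold BB
    fun_prop
  obtain ⟨M, hM⟩ := hy.bounded
  have hsub : Icc 0 t ⊆ Icc 0 T := Icc_subset_Icc le_rfl ht.2.le
  -- the sign
  have key : ∀ c : ℝ, |c| = 1 → c * y t x - BB ‖v‖ a L t x ≤ 0 := by
    intro c hc
    have hcle : ∀ r : ℝ, c * r ≤ |r| := by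
      intro r
      calc c * r ≤ |c * r| := le_abs_self _
        _ = |r| := by rw [abs_mul, hc, one_mul]
    refine comparison (L := L) (T := t) (M := M)
      (z := fun s x' => c * y s x' - BB ‖v‖ a L s x')
      (zt := fun s x' => c * deriv (deriv (y s)) x' - a ^ 2 * BB ‖v‖ a L s x')
      (zx := fun s x' => c * deriv (y s) x' -
        a * (‖v‖ * Real.exp (a ^ 2 * s) * Real.cosh (a * x') / Real.sinh (a * L)))
      (zxx := fun s x' => c * deriv (deriv (y s)) x' - a ^ 2 * BB ‖v‖ a L s x')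
      ?_ ?_ ?_ ?_ ?_ ?_ ?_ ?_ ?_ t ⟨ht.1, le_rfl⟩ x hx
    · intro s hs x' hx'
      have h1 := hM s (hsub hs) x' hx'
      have h2 := hcle (y s x')
      have h3 := hB0 s x' hx'.1
      linarith
    · apply ContinuousOn.sub
      · refine ContinuousOn.mono (continuousOn_const.mul hy.continuousOn) ?_
        rintro q ⟨⟨h1, h2⟩, h3⟩
        exact ⟨⟨hsub h1, h2⟩, h3⟩
      · exact hBc.continuousOn
    · intro s hs x' hx'
      have hs' : s ∈ Ioo 0 T := ⟨hs.1, hs.2.trans_lt ht.2⟩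
      exact ((hy.heat s hs' x' hx').const_mul c).sub BB_dt
    · intro s hs x' hx'
      have hs' : s ∈ Ioo 0 T := ⟨hs.1, hs.2.trans_lt ht.2⟩
      exact ((hy.differentiable s hs' x' hx').1.hasDerivAt.const_mul c).sub BB_dx
    · intro s hs x' hx'
      have hs' : s ∈ Ioo 0 T := ⟨hs.1, hs.2.trans_lt ht.2⟩
      exact ((hy.differentiable s hs' x' hx').2.hasDerivAt.const_mul c).sub BB_dxx
    · intro s hs x' hx'
      exact le_rfl
    · intro x' hx'
      rw [hy.initial x' hx']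
      have h3 := hB0 0 x' hx'.1
      linarith
    · intro s hs
      rw [hy.left s (hsub hs)]
      have h3 := hB0 s 0 le_rfl
      linarith
    · intro s hs
      have h1 := hy.right ⟨s, hsub ⟨hs.1.le, hs.2⟩⟩ hs.1
      simp only at h1
      rw [h1]
      have h2 := hcle (v ⟨s, hsub ⟨hs.1.le, hs.2⟩⟩)
      have h3 : |v ⟨s, hsub ⟨hs.1.le, hs.2⟩⟩| ≤ ‖v‖ := v.norm_coe_le_norm _
      have h4 := hBL s hs.1.le
      linarith
  rw [abs_le]
  have h1 := key 1 (by simp)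
  have h2 := key (-1) (by simp)
  constructor <;> linarith

/-- The flux at time `t` is at most `‖v‖ a exp(a² t) / sinh (a L)`. -/
theorem flux_le {L T : ℝ} (hL : 0 < L) {v : C(Icc (0 : ℝ) T, ℝ)} {y : ℝ → ℝ → ℝ}
    (hy : IsSolution L T v y) {a : ℝ} (ha : 0 < a) {t g : ℝ} (ht : t ∈ Ioo 0 T)
    (hg : HasDerivWithinAt (y t) g (Icc 0 L) 0) :
    g ≤ a * (‖v‖ * Real.exp (a ^ 2 * t) / Real.sinh (a * L)) := by
  have h1 := (BB_dx (K := ‖v‖) (a := a) (L := L) (t := t) (x := 0)).hasDerivWithinAt (s := Icc 0 L)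
  have h2 := deriv_le_of_le hL hg h1 (by rw [hy.left t ⟨ht.1.le, ht.2.le⟩]; simp [BB])
    (fun x hx => (le_abs_self _).trans (abs_le_barrier hL hy ha ht hx))
  simpa using h2

theorem norm_ge {L T : ℝ} (hL : 0 < L) {v : C(Icc (0 : ℝ) T, ℝ)} {ε : ℝ} (hε : 0 < ε)
    (hεT : 2 * ε < T) (hv : Achieves L T (fun t => t) ε v) :
    2 * ε ^ 2 / L * (Real.exp (L ^ 2 / (8 * ε)) - 1) ≤ ‖v‖ := by
  obtain ⟨y, g, hy, -, hg⟩ := hv
  have ht : 2 * ε ∈ Ioo 0 T := ⟨by positivity, hεT⟩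
  obtain ⟨h1, h2⟩ := hg (2 * ε) ⟨ht.1.le, ht.2.le⟩
  have h3 : ε ≤ g (2 * ε) := by
    have := (abs_le.1 h2).1
    linarith
  set a := L / (4 * ε) with ha
  have ha0 : 0 < a := by positivity
  have h4 := h3.trans (flux_le hL hy ha0 ht h1)
  set s := L ^ 2 / (8 * ε) with hs
  have hs0 : 0 < s := by positivity
  have e1 : a ^ 2 * (2 * ε) = s := by rw [ha, hs]; field_simp; ring
  have e2 : a * L = 2 * s := by rw [ha, hs]; field_simp; ring
  rw [e1, e2] at h4
  have hsinh : 0 < Real.sinh (2 * s) := Real.sinh_pos_iff.2 (by positivity)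
  have h5 : ε * Real.sinh (2 * s) ≤ a * ‖v‖ * Real.exp s := by
    have h6 : a * (‖v‖ * Real.exp s / Real.sinh (2 * s)) = (a * ‖v‖ * Real.exp s) / Real.sinh (2 * s) := by
      ring
    rw [h6, le_div_iff₀ hsinh] at h4
    exact h4
  have h7 : (Real.exp s - 1) / 2 * Real.exp s ≤ Real.sinh (2 * s) := by
    rw [Real.sinh_eq]
    have e3 : Real.exp (2 * s) = Real.exp s * Real.exp s := by rw [← Real.exp_add]; ring_nf
    have e4 : Real.exp (-(2 * s)) ≤ Real.exp s := Real.exp_le_exp.2 (by linarith)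
    rw [e3]
    nlinarith
  have h8 : ε * ((Real.exp s - 1) / 2) ≤ a * ‖v‖ := by
    have h9 : ε * ((Real.exp s - 1) / 2 * Real.exp s) ≤ a * ‖v‖ * Real.exp s :=
      (mul_le_mul_of_nonneg_left h7 hε.le).trans h5
    have h10 : (ε * ((Real.exp s - 1) / 2)) * Real.exp s ≤ (a * ‖v‖) * Real.exp s := by linarith
    exact le_of_mul_le_mul_right h10 (Real.exp_pos s)
  have h11 : ‖v‖ = (4 * ε / L) * (a * ‖v‖) := by
    rw [ha]; field_simp
  rw [h11]
  calc 2 * ε ^ 2 / L * (Real.exp s - 1) = (4 * ε / L) * (ε * ((Real.exp s - 1) / 2)) := by ring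
    _ ≤ (4 * ε / L) * (a * ‖v‖) := by gcongr

theorem cost_ge {L T : ℝ} (hL : 0 < L) {ε : ℝ} (hε : 0 < ε) (hεT : 2 * ε < T) :
    ENNReal.ofReal (2 * ε ^ 2 / L * (Real.exp (L ^ 2 / (8 * ε)) - 1)) ≤
      cost L T (fun t => t) ε := by
  unfold cost
  refine le_iInf₂ fun v hv => ?_
  rw [← ofReal_norm]
  exact ENNReal.ofReal_le_ofReal (norm_ge hL hε hεT hv)

end Pool.Agent.Q63.Tracking
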