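import Pool.Agent.Q63.Tracking.Defs

/-!
Comparison principle for the heat equation on `[0,T'] × [0,L]` for bounded functions which are
continuous except at the corner `(0,L)`.
-/

open Set Filter Topology

namespace Pool.Agent.Q63.Tracking

/-- Necessary second order condition at a local maximum. -/
theorem second_le {f f' : ℝ → ℝ} {f'' x : ℝ} (hf : ∀ᶠ y in 𝓝 x, HasDerivAt f (f' y) y)
    (hf' : HasDerivAt f' f'' x) (hmax : IsLocalMax f x) : f'' ≤ 0 := by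
  by_contra hpos
  push Not at hpos
  have h0 : f' x = 0 := by
    have h1 := hf.self_of_nhds
    have := hmax.deriv_eq_zero
    rwa [h1.deriv] at this
  have hde : deriv f =ᶠ[𝓝 x] f' := by
    filter_upwards [hf] with y hy using hy.deriv
  have hdd : deriv (deriv f) x = f'' := by
    rw [hde.deriv_eq, hf'.deriv]
  have hmin : IsLocalMin f x := by
    apply isLocalMin_of_deriv_deriv_pos
    · rw [hdd]; exact hpos
    · rw [hf.self_of_nhds.deriv, h0]
    · exact hf.self_of_nhds.continuousAt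
  have hconst : f =ᶠ[𝓝 x] fun _ => f x := by
    filter_upwards [hmin, hmax] with y h1 h2
    exact le_antisymm h2 h1
  have : deriv (deriv f) x = 0 := by
    have h1 : deriv f =ᶠ[𝓝 x] deriv (fun _ => f x) := hconst.deriv
    rw [h1.deriv_eq]
    simp
  linarith

/-- First order condition in time at a maximum over the past. -/
theorem first_ge {f : ℝ → ℝ} {f' t : ℝ} (hf : HasDerivAt f f' t)
    (hmax : ∀ᶠ s in 𝓝[<] t, f s ≤ f t) : 0 ≤ f' := by
  have h1 : HasDerivWithinAt f f' (Iio t) t := hf.hasDerivWithinAt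
  rw [hasDerivWithinAt_iff_tendsto_slope] at h1
  have hset : Iio t \ {t} = Iio t := by
    ext s; simp only [Set.mem_sdiff, mem_Iio, mem_singleton_iff]
    constructor
    · exact fun h => h.1
    · exact fun h => ⟨h, ne_of_lt h⟩
  rw [hset] at h1
  refine ge_of_tendsto h1 ?_
  filter_upwards [hmax, self_mem_nhdsWithin] with s hs hst
  rw [slope_def_field]
  have : s - t < 0 := sub_neg.2 hst
  apply div_nonneg_of_nonpos <;> linarith

/-- Maximum principle for strict subsolutions which are `≤ 0` near the corner `(0,L)`. -/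
theorem max_strict {L T : ℝ} {h ht hx hxx : ℝ → ℝ → ℝ}
    (hc : ContinuousOn (fun q : ℝ × ℝ => h q.1 q.2) ((Icc 0 T ×ˢ Icc 0 L) \ {(0, L)}))
    (dt : ∀ t ∈ Ioc 0 T, ∀ x ∈ Ioo 0 L, HasDerivAt (fun s => h s x) (ht t x) t)
    (dx : ∀ t ∈ Ioc 0 T, ∀ x ∈ Ioo 0 L, HasDerivAt (h t) (hx t x) x)
    (dxx : ∀ t ∈ Ioc 0 T, ∀ x ∈ Ioo 0 L, HasDerivAt (hx t) (hxx t x) x)
    (heq : ∀ t ∈ Ioc 0 T, ∀ x ∈ Ioo 0 L, ht t x < hxx t x)
    (h0 : ∀ x ∈ Ico 0 L, h 0 x ≤ 0) (hl : ∀ t ∈ Icc 0 T, h t 0 ≤ 0)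
    (hr : ∀ t ∈ Ioc 0 T, h t L ≤ 0)
    {r : ℝ} (hr0 : 0 < r) (hcor : ∀ t ∈ Icc 0 T, ∀ x ∈ Icc 0 L, t < r → L - r < x →
      (t, x) ≠ (0, L) → h t x ≤ 0) :
    ∀ t ∈ Icc 0 T, ∀ x ∈ Icc 0 L, (t, x) ≠ (0, L) → h t x ≤ 0 := by
  intro t0 ht0 x0 hx0 hne0
  by_contra hpos
  push Not at hpos
  -- the compact set
  set K : Set (ℝ × ℝ) := (Icc 0 T ×ˢ Icc 0 L) \ (Iio r ×ˢ Ioi (L - r)) with hK
  have hKc : IsCompact K :=
    (isCompact_Icc.prod isCompact_Icc).diff (isOpen_Iio.prod isOpen_Ioi)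
  have hmemK : ∀ q : ℝ × ℝ, q ∈ Icc 0 T ×ˢ Icc 0 L → q ≠ (0, L) → 0 < h q.1 q.2 → q ∈ K := by
    intro q hq hne hp
    refine ⟨hq, fun hq' => ?_⟩
    have := hcor q.1 hq.1 q.2 hq.2 hq'.1 hq'.2 (by simpa using hne)
    linarith
  have hKsub : K ⊆ (Icc 0 T ×ˢ Icc 0 L) \ {(0, L)} := by
    rintro q ⟨hq, hq'⟩
    refine ⟨hq, fun he => hq' ?_⟩
    rw [mem_singleton_iff] at he
    rw [he]
    exact ⟨hr0, by simp only [mem_Ioi]; linarith⟩
  have h0K : (t0, x0) ∈ K := hmemK (t0, x0) ⟨ht0, hx0⟩ hne0 hpos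
  obtain ⟨q, hqK, hqmax⟩ := hKc.exists_isMaxOn ⟨_, h0K⟩ (hc.mono hKsub)
  have hqpos : 0 < h q.1 q.2 := lt_of_lt_of_le hpos (hqmax h0K)
  have hglob : ∀ t ∈ Icc 0 T, ∀ x ∈ Icc 0 L, (t, x) ≠ (0, L) → h t x ≤ h q.1 q.2 := by
    intro t ht x hx hne
    rcases le_or_gt (h t x) 0 with h1 | h1
    · linarith
    · exact hqmax (hmemK (t, x) ⟨ht, hx⟩ hne h1)
  have hq1 : q.1 ∈ Icc 0 T := hqK.1.1
  have hq2 : q.2 ∈ Icc 0 L := hqK.1.2
  have hqne : q ≠ (0, L) := (hKsub hqK).2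
  -- the maximum is at an interior point
  have hqt : 0 < q.1 := by
    rcases eq_or_lt_of_le hq1.1 with h1 | h1
    · exfalso
      have hxl : q.2 < L := by
        rcases eq_or_lt_of_le hq2.2 with h2 | h2
        · exact absurd (Prod.ext h1.symm h2) hqne
        · exact h2
      have := h0 q.2 ⟨hq2.1, hxl⟩
      rw [← h1] at hqpos
      linarith
    · exact h1
  have hqx : q.2 ∈ Ioo 0 L := by
    constructor
    · rcases eq_or_lt_of_le hq2.1 with h1 | h1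
      · exfalso
        have := hl q.1 hq1
        rw [← h1] at hqpos
        linarith
      · exact h1
    · rcases eq_or_lt_of_le hq2.2 with h1 | h1
      · exfalso
        have := hr q.1 ⟨hqt, hq1.2⟩
        rw [h1] at hqpos
        linarith
      · exact h1
  have hqT : q.1 ∈ Ioc 0 T := ⟨hqt, hq1.2⟩
  have hnear : ∀ᶠ x in 𝓝 q.2, x ∈ Ioo 0 L := isOpen_Ioo.mem_nhds hqx
  have hs1 : hxx q.1 q.2 ≤ 0 := by
    apply second_le (f := h q.1) (f' := hx q.1) _ (dxx q.1 hqT q.2 hqx)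
    · filter_upwards [hnear] with x hx1
      exact hglob q.1 hq1 x ⟨hx1.1.le, hx1.2.le⟩ (fun he => hqt.ne' (Prod.ext_iff.1 he).1)
    · filter_upwards [hnear] with x hx1 using dx q.1 hqT x hx1
  have hs2 : 0 ≤ ht q.1 q.2 := by
    apply first_ge (dt q.1 hqT q.2 hqx)
    have : ∀ᶠ s in 𝓝[<] q.1, 0 < s := by
      apply Filter.Eventually.filter_mono nhdsWithin_le_nhds
      exact lt_mem_nhds hqt
    filter_upwards [this, self_mem_nhdsWithin] with s hs hs'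
    exact hglob s ⟨hs.le, (le_of_lt hs').trans hq1.2⟩ q.2 hq2
      (fun he => hs.ne' (Prod.ext_iff.1 he).1)
  have := heq q.1 hqT q.2 hqx
  linarith

end Pool.Agent.Q63.Tracking
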