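import Pool.Agent.Q63.Tracking.Lower

/-!
Uniqueness of the solution with a given control, and the asymptotics of the lower bound.
-/

open Set Filter Topology
open scoped ENNReal

namespace Pool.Agent.Q63.Tracking

/-- The difference of two solutions is a solution with zero control. -/
theorem IsSolution.sub {L T : ℝ} {v : C(Icc (0 : ℝ) T, ℝ)} {y y' : ℝ → ℝ → ℝ}
    (hy : IsSolution L T v y) (hy' : IsSolution L T v y') :
    IsSolution L T 0 (fun t x => y t x - y' t x) where
  bounded := by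
    obtain ⟨M, hM⟩ := hy.bounded
    obtain ⟨M', hM'⟩ := hy'.bounded
    refine ⟨M + M', fun t ht x hx => ?_⟩
    exact (abs_sub _ _).trans (add_le_add (hM t ht x hx) (hM' t ht x hx))
  continuousOn := hy.continuousOn.sub hy'.continuousOn
  differentiable := by
    intro t ht x hx
    obtain ⟨h1, h2⟩ := hy.differentiable t ht x hx
    obtain ⟨h1', h2'⟩ := hy'.differentiable t ht x hx
    refine ⟨h1.sub h1', ?_⟩
    have he : deriv (fun x => y t x - y' t x) =ᶠ[𝓝 x] fun x => deriv (y t) x - deriv (y' t) x := by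
      filter_upwards [isOpen_Ioo.mem_nhds hx] with z hz
      exact deriv_fun_sub (hy.differentiable t ht z hz).1 (hy'.differentiable t ht z hz).1
    exact (h2.fun_sub h2').congr_of_eventuallyEq he
  heat := by
    intro t ht x hx
    have he : deriv (fun x => y t x - y' t x) =ᶠ[𝓝 x] fun x => deriv (y t) x - deriv (y' t) x := by
      filter_upwards [isOpen_Ioo.mem_nhds hx] with z hz
      exact deriv_fun_sub (hy.differentiable t ht z hz).1 (hy'.differentiable t ht z hz).1
    have e2 : deriv (deriv (fun x => y t x - y' t x)) x =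
        deriv (deriv (y t)) x - deriv (deriv (y' t)) x := by
      rw [he.deriv_eq]
      exact deriv_fun_sub (hy.differentiable t ht x hx).2 (hy'.differentiable t ht x hx).2
    rw [e2]
    exact (hy.heat t ht x hx).sub (hy'.heat t ht x hx)
  left := by
    intro t ht
    rw [hy.left t ht, hy'.left t ht, sub_zero]
  right := by
    intro t ht
    rw [hy.right t ht, hy'.right t ht, sub_self]
    rfl
  initial := by
    intro x hx
    rw [hy.initial x hx, hy'.initial x hx, sub_zero]

/-- The solution with a given control is unique (up to its value at the corner `(0,L)`). -/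
theorem IsSolution.unique {L T : ℝ} (hL : 0 < L) {v : C(Icc (0 : ℝ) T, ℝ)} {y y' : ℝ → ℝ → ℝ}
    (hy : IsSolution L T v y) (hy' : IsSolution L T v y') {t x : ℝ} (ht : t ∈ Icc 0 T)
    (hx : x ∈ Icc 0 L) (hne : (t, x) ≠ (0, L)) : y t x = y' t x := by
  have h := hy.sub hy'
  rcases hx.2.lt_or_eq with hxL | hxL
  · rcases ht.1.lt_or_eq with h0 | h0
    · -- `t > 0`, `x < L`
      have hz : ∀ s ∈ Ioo 0 T, y s x - y' s x = 0 := by
        intro s hs
        have := abs_le_barrier hL h one_pos hs hx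
        have e : BB ‖(0 : C(Icc (0 : ℝ) T, ℝ))‖ 1 L s x = 0 := by simp [BB]
        rw [e] at this
        exact abs_nonpos_iff.1 this
      rcases ht.2.lt_or_eq with hT | hT
      · exact sub_eq_zero.1 (hz t ⟨h0, hT⟩)
      · subst hT
        have hc : ContinuousWithinAt (fun s => y s x - y' s x) (Icc 0 t) t := by
          have h1 := h.continuousOn (t, x) ⟨⟨ht, hx⟩, fun he => hne he⟩
          refine h1.comp (f := fun s => (s, x)) (by fun_prop) ?_
          intro s hs
          exact ⟨⟨hs, hx⟩, fun he => hxL.ne (Prod.ext_iff.1 he).2⟩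
        have hc' : Tendsto (fun s => y s x - y' s x) (𝓝[Ioo 0 t] t) (𝓝 (y t x - y' t x)) :=
          hc.mono Ioo_subset_Icc_self
        have hne' : (𝓝[Ioo 0 t] t).NeBot := right_nhdsWithin_Ioo_neBot h0
        have hz' : Tendsto (fun s => y s x - y' s x) (𝓝[Ioo 0 t] t) (𝓝 0) := by
          refine tendsto_const_nhds.congr' ?_
          filter_upwards [self_mem_nhdsWithin] with s hs
          exact (hz s hs).symm
        exact sub_eq_zero.1 (tendsto_nhds_unique hc' hz')
    · rw [← h0, hy.initial x ⟨hx.1, hxL⟩, hy'.initial x ⟨hx.1, hxL⟩]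
  · have h0 : 0 < t := lt_of_le_of_ne ht.1 fun he => hne (by rw [← he, hxL])
    rw [hxL, hy.right ⟨t, ht⟩ h0, hy'.right ⟨t, ht⟩ h0]

/-- The lower bound beats `C exp (C ε^(-1/2))`. -/
theorem exists_beats {L T : ℝ} (hL : 0 < L) (hT : 0 < T) (C : ℝ) :
    ∃ ε : ℝ, 0 < ε ∧ 2 * ε < T ∧
      C * Real.exp (C * ε ^ (-(1 / 2) : ℝ)) <
        2 * ε ^ 2 / L * (Real.exp (L ^ 2 / (8 * ε)) - 1) := by
  set D := |C| with hD
  have hD0 : 0 ≤ D := abs_nonneg C
  have h1 : ∀ᶠ s : ℝ in atTop, D * L / 2 + 1 ≤ Real.exp s / s ^ 4 :=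
    (Real.tendsto_exp_div_pow_atTop 4).eventually_ge_atTop _
  have h2 : ∀ᶠ s : ℝ in atTop, 1 ≤ s := eventually_ge_atTop 1
  have h3 : ∀ᶠ s : ℝ in atTop, (D + 2) * (8 / L ^ 2) ≤ s := eventually_ge_atTop _
  have h4 : ∀ᶠ s : ℝ in atTop, 2 / T + 1 ≤ s := eventually_ge_atTop _
  obtain ⟨s, h1, h2, h3, h4⟩ := (h1.and (h2.and (h3.and h4))).exists
  have hs : 0 < s := by linarith
  refine ⟨(s ^ 2)⁻¹, by positivity, ?_, ?_⟩
  · have h5 : 2 / T < s ^ 2 := by nlinarith
    rw [div_lt_iff₀ hT] at h5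
    rw [← div_eq_mul_inv, div_lt_iff₀ (by positivity)]
    linarith
  · have e1 : ((s ^ 2)⁻¹ : ℝ) ^ (-(1 / 2) : ℝ) = s := by
      rw [Real.rpow_neg (by positivity), ← Real.sqrt_eq_rpow, Real.sqrt_inv, Real.sqrt_sq hs.le,
        inv_inv]
    have e2 : L ^ 2 / (8 * (s ^ 2)⁻¹) = L ^ 2 / 8 * s ^ 2 := by
      field_simp
    rw [e1, e2]
    have h6 : (D + 2) * s ≤ L ^ 2 / 8 * s ^ 2 := by
      have : (D + 2) ≤ L ^ 2 / 8 * s := by
        have h7 : L ^ 2 / 8 * ((D + 2) * (8 / L ^ 2)) = D + 2 := by field_simp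
        rw [← h7]
        gcongr
      nlinarith
    have h7 : C * Real.exp (C * s) ≤ D * Real.exp (D * s) := by
      have hCD : C ≤ D := le_abs_self C
      calc C * Real.exp (C * s) ≤ D * Real.exp (C * s) := by gcongr
        _ ≤ D * Real.exp (D * s) := by gcongr
    have h8 : Real.exp ((D + 1) * s) ≤ Real.exp (L ^ 2 / 8 * s ^ 2) - 1 := by
      have h9 : Real.exp ((D + 2) * s) ≤ Real.exp (L ^ 2 / 8 * s ^ 2) := Real.exp_le_exp.2 h6
      have h10 : Real.exp ((D + 2) * s) = Real.exp ((D + 1) * s) * Real.exp s := by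
        rw [← Real.exp_add]; ring_nf
      have h11 : 1 ≤ Real.exp ((D + 1) * s) := Real.one_le_exp (by positivity)
      have h12 : 2 ≤ Real.exp s := by linarith [Real.add_one_le_exp s]
      nlinarith
    have h13 : Real.exp ((D + 1) * s) = Real.exp (D * s) * Real.exp s := by
      rw [← Real.exp_add]; ring_nf
    have h14 : (D * L / 2 + 1) * s ^ 4 ≤ Real.exp s := by
      rw [le_div_iff₀ (by positivity)] at h1
      exact h1
    calc C * Real.exp (C * s) ≤ D * Real.exp (D * s) := h7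
      _ < 2 * ((s ^ 2)⁻¹) ^ 2 / L * (Real.exp (D * s) * ((D * L / 2 + 1) * s ^ 4)) := by
        have : 2 * ((s ^ 2)⁻¹) ^ 2 / L * (Real.exp (D * s) * ((D * L / 2 + 1) * s ^ 4)) =
          D * Real.exp (D * s) + 2 / L * Real.exp (D * s) := by
          field_simp
        rw [this]
        have : 0 < 2 / L * Real.exp (D * s) := by positivity
        linarith
      _ ≤ 2 * ((s ^ 2)⁻¹) ^ 2 / L * (Real.exp (D * s) * Real.exp s) := by gcongr
      _ ≤ 2 * ((s ^ 2)⁻¹) ^ 2 / L * (Real.exp (L ^ 2 / 8 * s ^ 2) - 1) := by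
        rw [← h13]
        gcongr

end Pool.Agent.Q63.Tracking
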